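import Pool.Agent.H80.LD.Final2

/-!
# DPC for self-similar limits of ferromagnetic reflection positive `φ⁴` systems

The definitions are in `Pool/Agent/H43/DPC/{Defs,Stmt}.lean` (random distributions, moments,
conditions 1-3, DPC) and `Pool/Agent/H80/LD/{Stmt,Stmt2}.lean` (finite systems, the class `Reach`
of limits in law, lattice systems, the sum over the pairings).
-/

set_option autoImplicit false

open MeasureTheory

namespace Pool.Agent.Results.MP_47c37b_mp.LatticeDPC

open Pool.Agent.H43.DPC (V SD Diag)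
open Pool.Agent.H43.DPCS (TransInv RotInv SelfSim Cond123 IsDPC)
open Pool.Agent.H80.LD

/-- (1) Let `μ` be a law on `S'(ℝ^d)` which is obtained by limits in law from the fields of finite
ferromagnetic `φ⁴` systems which are reflection positive with respect to one hyperplane. If `μ` is
translation invariant, `O(d)`-invariant and self-similar of dimension `a`, `0 < a < d/2`, then `μ`
is DPC, and off the diagonal `0 ≤ S_n ≤` the sum over the pairings of the products of
`c |x_i - x_j|^(-2a)`, for some `c`.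

(2) The laws of the fields of the lattice `φ⁴` models with the couplings `κ |x - y|^(-2s)`,
`s ≥ d/2`, and nearest neighbour couplings `κ'`, belong to this class. -/
theorem result :
    (∀ (d : ℕ) (a : ℝ), 0 < a → 2 * a < d → ∀ e : V d, ‖e‖ = 1 → ∀ μ : Measure (SD d),
      Reach e μ → TransInv μ → RotInv μ → SelfSim a μ →
      IsDPC μ ∧ ∃ c : ℝ, 0 ≤ c ∧ ∀ n : ℕ, ∃ s : (Fin n → V d) → ℝ, Cond123 μ n s ∧
        ∀ x : Fin n → V d, x ∉ Diag d n →
          0 ≤ s x ∧ s x ≤ pair (fun i j => c * ‖x i - x j‖ ^ (-(2 * a))) Finset.univ) ∧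
    ∀ (d L : ℕ) (j : Fin d) (δ κ κ' s g b w : ℝ), 0 < δ → 0 ≤ κ → 0 ≤ κ' → (d : ℝ) ≤ 2 * s →
      0 < g → 0 ≤ w → ∃ F : (Bx d L → ℝ) → SD d, IsField (bpos δ) (fun _ => w) F ∧
        Reach (EuclideanSpace.single j 1) ((bgibbs d L δ κ κ' s g b).map F) :=
  final2

end Pool.Agent.Results.MP_47c37b_mp.LatticeDPC
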