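import Pool.Agent.H43.DPC.Stmt

/-!
# Self-similar random distributions: which parts of DPC are automatic
-/

open MeasureTheory

namespace Pool.Agent.Results.MP_47c37b_mp.NoContactTerms

open Pool.Agent.H43.DPC (V SD IsMAO IsDC NegPartLocInt)
open Pool.Agent.H43.DPCS

/-- Let `μ` be a probability measure on `S'(ℝ^d)` (Borel σ-algebra of the weak-* topology) which is
translation invariant and self-similar of dimension `a`, `0 < a < d/2`: the law of `t^a φ(t ·)` is
`μ` for all `t > 0`.

(1) If `μ` is MAO then for every `n` and every function `s`: if condition 1 holds with `s` and the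
negative part of `s` is locally integrable, then conditions 2 and 3 hold with `s`.

(2) If `μ` is MAO and `O(d)`-invariant then conditions 1, 2, 3 hold for `n = 2` with
`s(x, y) = c |x - y|^(-2a)` for some `c ≥ 0`.

(3) If `μ` is `O(d)`-invariant then `μ` is DPC if and only if it is MAO and DC and for every
`n ≥ 3` (every even `n ≥ 4` if `μ` is even) condition 1 holds with a function whose negative part
is locally integrable. -/
theorem result {d : ℕ} (a : ℝ) (ha0 : 0 < a) (ha : 2 * a < d) (μ : Measure (SD d))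
    [IsProbabilityMeasure μ] (hT : TransInv μ) (hS : SelfSim a μ) :
    (IsMAO μ → ∀ (n : ℕ) (s : (Fin n → V d) → ℝ), Cond1 μ n s → NegPartLocInt n s →
      Cond123 μ n s) ∧
    (IsMAO μ → RotInv μ → ∃ c : ℝ, 0 ≤ c ∧ Cond123 μ 2 (powKer a c)) ∧
    (RotInv μ → (IsDPC μ ↔ IsMAO μ ∧ IsDC μ ∧ ∀ n : ℕ, 3 ≤ n → (EvenLaw μ → Even n) →
      ∃ s : (Fin n → V d) → ℝ, Cond1 μ n s ∧ NegPartLocInt n s)) :=
  final' a ha0 ha μ hT hS

end Pool.Agent.Results.MP_47c37b_mp.NoContactTerms
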