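import Pool.Agent.H29.UDP.Final

/-!
# Scaling limits of lattice fractional `φ⁴` models are DPC

The definitions are in `Pool/Agent/H43/DPC/{Defs,Stmt}.lean` (random distributions, moments,
conditions 1-3, DPC), `Pool/Agent/H80/LD/Stmt.lean` (the sum over the pairings) and
`Pool/Agent/H29/UDP/{Lat,Stmt}.lean` (lattice models in a box and on a torus, infinite volume laws,
convergence in law, the conclusions `Concl`).
-/

set_option autoImplicit false

open MeasureTheory Filter Topology

namespace Pool.Agent.Results.MP_47c37b_mp.ScalingLimits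

open Pool.Agent.H43.DPC (SD)
open Pool.Agent.H43.DPCS (TransInv)
open Pool.Agent.H29.UDP (NoLRO InfVol Cvg Concl)

/-- Let `0 < α < d`. There is a constant `A` with the following property. Let `δ_k → 0`, let
`κ_k, g_k > 0`, `κ'_k, w_k ≥ 0`, `b_k ∈ ℝ`, `w_k² ≤ C κ_k`, and suppose that for all `k` and all
`b' > b_k` the `φ⁴` model with the single spin density `exp (-(g_k s⁴ + b' s²))` and the couplings
`κ_k |x - y|^(-d-α)` (plus `κ'_k` for nearest neighbours) on the lattice with spacing `δ_k` has no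
long range order on the tori.

(1) For every `k` there is exactly one infinite volume law of the field `∑ w_k φ_x δ_x`.

(2) A subsequence of the infinite volume laws `ν_k` converges in law.

(3) Every limit in law `μ` of a subsequence is translation invariant and DPC; its two point
function is `F (x - y)` with `F ≥ 0` smooth off `0` and `∫_(|z| < r) F ≤ A C r^α`, and off the
diagonals `0 ≤ S_n ≤` the sum over the pairings of the products of `F (x_i - x_j)`, for all `n`. -/
theorem result : ∀ (d : ℕ) (α : ℝ), 0 < α → α < d → ∃ A : ℝ, 0 ≤ A ∧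
    ∀ (C : ℝ) (δ κ κ' g b w : ℕ → ℝ),
      (∀ k, 0 < δ k ∧ 0 < κ k ∧ 0 ≤ κ' k ∧ 0 < g k ∧ 0 ≤ w k ∧ w k ^ 2 ≤ C * κ k) →
      Tendsto δ atTop (𝓝 0) →
      (∀ k b', b k < b' → NoLRO d (δ k) (κ k) (κ' k) ((d + α) / 2) (g k) b') →
      (∀ k, ∃! ν : Measure (SD d),
        InfVol d (δ k) (κ k) (κ' k) ((d + α) / 2) (g k) (b k) (w k) ν) ∧
      ∀ ν : ℕ → Measure (SD d),
        (∀ k, InfVol d (δ k) (κ k) (κ' k) ((d + α) / 2) (g k) (b k) (w k) (ν k)) →
        (∃ φ : ℕ → ℕ, StrictMono φ ∧ ∃ μ : Measure (SD d), IsProbabilityMeasure μ ∧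
          Cvg (fun k => ν (φ k)) μ) ∧
        ∀ (φ : ℕ → ℕ) (μ : Measure (SD d)), StrictMono φ → IsProbabilityMeasure μ →
          Cvg (fun k => ν (φ k)) μ → TransInv μ ∧ Concl μ α (A * C) :=
  Pool.Agent.H29.UDP.final.2

end Pool.Agent.Results.MP_47c37b_mp.ScalingLimits
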